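import Pool.Agent.H87.QP.Targets2

/-!
# Row SF1 of the board qp: relations between the multiples of the primes of one level (helper92,
after the row SE1 of helper69)
-/

set_option autoImplicit false

namespace Pool.Agent.H92.QP

open Finset Pool.Agent.H18.MR Pool.Agent.H93.DE Pool.Agent.H6.N4D Pool.Agent.H93
  Pool.Agent.H93.ES Pool.Agent.H93.EB Pool.Agent.H28.NW Pool.Agent.H87.QP

/-- one prime, one window -/
theorem sf1_point (hD : T_DPS) (hB : T_PSB) {lam : ℕ → ℝ} (hl : Lio lam) {H T q : ℕ} (n : ℕ)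
    (hq : q.Prime) (hqT : q ≤ T) {δ d : ℝ} (hδ : 0 < δ) (hd : 0 < d) :
    ps lam H T q n ≤ ps lam H (T / q) 1 (n / q) + d +
      2 * ((H : ℝ) + 1) * (∑ k ∈ Icc 1 H, (δ + 1 / (4 * δ) * tq lam q T k n ^ 2)) +
        20 * ((H : ℝ) + 1) ^ 3 * q / T := by
  have hq1 : 1 ≤ q := hq.one_lt.le
  have hT1 : 1 ≤ T := hq1.trans hqT
  have hTq : 1 ≤ T / q := (Nat.one_le_div_iff hq1).2 hqT
  obtain ⟨c, hc1, hc2⟩ := (hB lam H (T / q) 1 (n / q) hl.pm hTq).2.2.2 d hd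
  have h1 := (hB lam H T q n hl.pm hT1).2.2.1 c hc1.2.ge
  have h2 := hD lam H T q n c hl hq hqT hc1.1
  have h3 : ∑ k ∈ Icc 1 H, |tq lam q T k n| ≤
      ∑ k ∈ Icc 1 H, (δ + 1 / (4 * δ) * tq lam q T k n ^ 2) := by
    refine sum_le_sum fun h _ => ?_
    have h6 : 0 ≤ (|tq lam q T h n| - 2 * δ) ^ 2 := sq_nonneg _
    have h7 : |tq lam q T h n| ^ 2 = tq lam q T h n ^ 2 := sq_abs _
    have h8 : |tq lam q T h n| * (4 * δ) ≤ (δ + 1 / (4 * δ) * tq lam q T h n ^ 2) * (4 * δ) := by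
      have h9 : (δ + 1 / (4 * δ) * tq lam q T h n ^ 2) * (4 * δ) =
          4 * δ ^ 2 + tq lam q T h n ^ 2 := by
        field_simp
      rw [h9]
      nlinarith
    exact le_of_mul_le_mul_right h8 (by positivity)
  have h4 : 2 * ((H : ℝ) + 1) * ∑ k ∈ Icc 1 H, |tq lam q T k n| ≤
      2 * ((H : ℝ) + 1) * ∑ k ∈ Icc 1 H, (δ + 1 / (4 * δ) * tq lam q T k n ^ 2) :=
    mul_le_mul_of_nonneg_left h3 (by positivity)
  linarith

/-- one prime, logarithmic means -/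
theorem sf1_prime (hD : T_DPS) (hB : T_PSB) (hM : T_LPS) {lam : ℕ → ℝ} (hl : Lio lam)
    {H T q Ls : ℕ} (X : Wn) (hq : q.Prime) (hqT : q ≤ T) (hTL : T ≤ Ls) {δ d : ℝ} (hδ : 0 < δ)
    (hd : 0 < d) :
    wlg X (fun n => ps lam H T q n) ≤
      wlg X (fun n => ps lam H Ls 1 n) + 10 * (1 + Real.log Ls) +
        2 * ((H : ℝ) + 1) ^ 2 * (T / Ls) * (1 + X.L) + 2 * (3 * hs q + 2) +
        (d * (1 + X.L) + 2 * ((H : ℝ) + 1) * δ * H * (1 + X.L) +
          2 * ((H : ℝ) + 1) / (4 * δ) * ∑ h ∈ Icc 1 H, wlg X (fun n => tq lam q T h n ^ 2)) +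
        20 * ((H : ℝ) + 1) ^ 3 * (q / T) * (1 + X.L) := by
  have hq1 : 1 ≤ q := hq.one_lt.le
  have hT1 : 1 ≤ T := hq1.trans hqT
  have hL1 : 1 ≤ Ls := hT1.trans hTL
  have hT0 : (0 : ℝ) < T := by exact_mod_cast hT1
  have hL0 : (0 : ℝ) < Ls := by exact_mod_cast hL1
  have hTq : 1 ≤ T / q := (Nat.one_le_div_iff hq1).2 hqT
  have hTqL : T / q ≤ Ls := (Nat.div_le_self _ _).trans hTL
  have hX := X.L_nonneg
  obtain ⟨φ, hφ⟩ : ∃ φ : ℕ → ℝ, φ = fun n => ps lam H (T / q) 1 n := ⟨_, rfl⟩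
  have hφ0 : ∀ n, 0 ≤ φ n ∧ φ n ≤ 1 := by
    intro n
    rw [hφ]
    have := hB lam H (T / q) 1 n hl.pm hTq
    exact ⟨this.1, this.2.1⟩
  obtain ⟨A, hA⟩ : ∃ A : ℝ, A = (H : ℝ) + 1 := ⟨_, rfl⟩
  have hA0 : 0 < A := by rw [hA]; positivity
  have h1 : wlg X (fun n => ps lam H T q n) ≤
      wlg X (fun n => (φ (n / q) + d + 2 * A * (∑ k ∈ Icc 1 H,
        (δ + 1 / (4 * δ) * tq lam q T k n ^ 2))) + 20 * A ^ 3 * q / T) := by
    refine wlg_mono fun n _ => ?_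
    rw [hφ, hA]
    exact sf1_point hD hB hl n hq hqT hδ hd
  have h2 : wlg X (fun n => (φ (n / q) + d + 2 * A * (∑ k ∈ Icc 1 H,
        (δ + 1 / (4 * δ) * tq lam q T k n ^ 2))) + 20 * A ^ 3 * q / T) =
      wlg X (fun n => φ (n / q)) + (d * wlg X (fun _ => 1) +
        (2 * A * δ * H * wlg X (fun _ => 1) +
        2 * A / (4 * δ) * ∑ h ∈ Icc 1 H, wlg X (fun n => tq lam q T h n ^ 2))) +
        20 * A ^ 3 * (q / T) * wlg X (fun _ => 1) := by
    rw [wlg_add X (fun n => φ (n / q) + d + 2 * A * (∑ k ∈ Icc 1 H,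
        (δ + 1 / (4 * δ) * tq lam q T k n ^ 2))) (fun _ => 20 * A ^ 3 * q / T),
      wlg_add X (fun n => φ (n / q) + d)
        (fun n => 2 * A * (∑ k ∈ Icc 1 H, (δ + 1 / (4 * δ) * tq lam q T k n ^ 2))),
      wlg_add X (fun n => φ (n / q)) (fun _ => d), wlg_const X d,
      wlg_const X (20 * A ^ 3 * q / T)]
    have h3 : wlg X (fun n => 2 * A * ∑ h ∈ Icc 1 H, (δ + 1 / (4 * δ) * tq lam q T h n ^ 2)) =
        2 * A * δ * H * wlg X (fun _ => 1) +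
          2 * A / (4 * δ) * ∑ h ∈ Icc 1 H, wlg X (fun n => tq lam q T h n ^ 2) := by
      rw [wlg_mul X (2 * A) (fun n => ∑ h ∈ Icc 1 H, (δ + 1 / (4 * δ) * tq lam q T h n ^ 2)),
        wlg_sum X (Icc 1 H) (fun h n => δ + 1 / (4 * δ) * tq lam q T h n ^ 2)]
      have h4 : ∀ h : ℕ, wlg X (fun n => δ + 1 / (4 * δ) * tq lam q T h n ^ 2) =
          δ * wlg X (fun _ => 1) + 1 / (4 * δ) * wlg X (fun n => tq lam q T h n ^ 2) := by
        intro h
        rw [wlg_add X (fun _ => δ) (fun n => 1 / (4 * δ) * tq lam q T h n ^ 2), wlg_const X δ,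
          wlg_mul X (1 / (4 * δ)) (fun n => tq lam q T h n ^ 2)]
      rw [sum_congr rfl fun h _ => h4 h, sum_add_distrib, sum_const, Nat.card_Icc,
        Nat.add_sub_cancel, nsmul_eq_mul, ← mul_sum]
      ring
    rw [h3]
    ring
  have h3 : wlg X (fun n => φ (n / q)) ≤ wlg X φ + 2 * (3 * hs q + 2) := by
    have h4 := (abs_le.1 (wlg_div X q hq1 φ (c := 1) (fun n => by
      rw [abs_le]
      constructor <;> linarith [(hφ0 n).1, (hφ0 n).2]))).2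
    linarith
  have h4 : wlg X φ ≤ wlg X (fun n => ps lam H Ls 1 n) +
      10 * (1 + Real.log Ls) + 2 * A ^ 2 * (T / Ls) * (1 + X.L) := by
    have h5 := hM lam H Ls (T / q) 1 X hl.pm hTq hTqL
    rw [← hφ, ← hA] at h5
    have h7 : 2 * A ^ 2 * ((T / q : ℕ) : ℝ) / Ls * (1 + X.L) ≤
        2 * A ^ 2 * (T / Ls) * (1 + X.L) := by
      apply mul_le_mul_of_nonneg_right _ (by linarith)
      rw [mul_div_assoc]
      apply mul_le_mul_of_nonneg_left _ (by positivity)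
      apply div_le_div_of_nonneg_right _ hL0.le
      exact_mod_cast Nat.div_le_self T q
    linarith
  have h5 := wlg_one_le X
  have h6 : 2 * A * δ * H * wlg X (fun _ => 1) ≤ 2 * A * δ * H * (1 + X.L) :=
    mul_le_mul_of_nonneg_left h5 (by positivity)
  have h7 : 20 * A ^ 3 * ((q : ℝ) / T) * wlg X (fun _ => 1) ≤ 20 * A ^ 3 * (q / T) * (1 + X.L) :=
    mul_le_mul_of_nonneg_left h5 (by positivity)
  have h8 : d * wlg X (fun _ => 1) ≤ d * (1 + X.L) := mul_le_mul_of_nonneg_left h5 hd.le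
  rw [← hA]
  linarith

theorem pf_SF1 (hG : T_GLV) (hD : T_DPS) (hB : T_PSB) (hM : T_LPS) (hL : T_QLB) (hQ : T_QSU) :
    T_SF1 := by
  intro H W₀ c hc
  obtain ⟨s₀, w₀, hs₀, hL⟩ := hL
  obtain ⟨W, hW, hQ⟩ := hQ
  obtain ⟨A, hA⟩ : ∃ A : ℝ, A = (H : ℝ) + 1 := ⟨_, rfl⟩
  have hA1 : 1 ≤ A := by
    rw [hA]
    have : (0 : ℝ) ≤ H := Nat.cast_nonneg H
    linarith
  have hA0 : 0 < A := by linarith
  have hHA : (H : ℝ) ≤ A := by rw [hA]; linarith
  -- the constants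
  obtain ⟨n₀, hn₀⟩ : ∃ n₀ : ℕ, 400 * A ^ 3 / c < (2 : ℝ) ^ n₀ :=
    pow_unbounded_of_one_lt _ (by norm_num)
  obtain ⟨M, hM0⟩ := exists_nat_gt (40 * A ^ 2 / c)
  have hM1 : (0 : ℝ) < M := lt_trans (by positivity) hM0
  obtain ⟨δ, hδd⟩ : ∃ δ : ℝ, δ = c / (40 * A ^ 2) := ⟨_, rfl⟩
  have hδ : 0 < δ := by rw [hδd]; positivity
  obtain ⟨W₁, X₀, hG⟩ := hG H (max W₀ (max w₀ (2 * n₀))) (c * s₀ * δ / (10 * A)) (by positivity)
  obtain ⟨Ls, hLs⟩ : ∃ Ls : ℕ, Ls = 2 ^ W₁ * M := ⟨_, rfl⟩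
  have hMn : 1 ≤ M := by exact_mod_cast hM1
  have hLs1 : 1 ≤ Ls := by rw [hLs]; exact Nat.mul_pos (by positivity) hMn
  obtain ⟨K, hK⟩ : ∃ K : ℝ, K = 10 * (1 + Real.log Ls) + 2 * (3 * hs (2 ^ W₁) + 2) := ⟨_, rfl⟩
  refine ⟨Ls, W₁, max X₀ (2 * (K + c) / c), hLs1, ?_⟩
  intro X lam hX hl hnear
  obtain ⟨w, hw1, hw2, hw3⟩ := hG X lam ((le_max_left _ _).trans hX) (fun n _ => hl.pm n)
  have hX2 : 2 * (K + c) / c ≤ X.L := (le_max_right _ _).trans hX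
  have hX0 := X.L_nonneg
  refine ⟨w, (le_max_left _ _).trans hw1, hw2, ?_⟩
  have hww : w₀ ≤ w := ((le_max_left _ _).trans (le_max_right _ _)).trans hw1
  have hwn : 2 * n₀ ≤ w := ((le_max_right _ _).trans (le_max_right _ _)).trans hw1
  have hS := hL w hww
  obtain ⟨S, hSd⟩ : ∃ S : ℝ, S = ∑ q ∈ EB.QQ w, 1 / (q : ℝ) := ⟨_, rfl⟩
  rw [← hSd] at hS ⊢
  have hTL : 2 ^ w ≤ Ls := by
    rw [hLs]
    exact (Nat.pow_le_pow_right (by norm_num) hw2).trans (Nat.le_mul_of_pos_right _ hMn)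
  have hLs0 : (0 : ℝ) < Ls := by exact_mod_cast hLs1
  -- the small quantities
  have e1 : 2 * A ^ 2 * (((2 ^ w : ℕ) : ℝ) / Ls) ≤ c / 20 := by
    have h1 : (((2 ^ w : ℕ) : ℝ)) ≤ 2 ^ W₁ := by
      exact_mod_cast Nat.pow_le_pow_right (by norm_num) hw2
    have h2 : ((Ls : ℕ) : ℝ) = 2 ^ W₁ * M := by rw [hLs]; push_cast; rfl
    have h3 : ((2 ^ w : ℕ) : ℝ) / Ls ≤ 1 / M := by
      rw [div_le_div_iff₀ hLs0 hM1, h2, one_mul]
      exact mul_le_mul_of_nonneg_right h1 hM1.le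
    have h4 : 2 * A ^ 2 * (1 / (M : ℝ)) ≤ c / 20 := by
      rw [mul_one_div, div_le_div_iff₀ hM1 (by norm_num)]
      rw [div_lt_iff₀ hc] at hM0
      linarith
    exact (mul_le_mul_of_nonneg_left h3 (by positivity)).trans h4
  have e2 : ∀ q ∈ EB.QQ w, 20 * A ^ 3 * ((q : ℝ) / ((2 ^ w : ℕ) : ℝ)) ≤ c / 20 := by
    intro q hq
    have hq1 : q ≤ 2 ^ (w / 200) := (mem_Ioc.1 (mem_filter.1 hq).1).2
    have h1 : (2 : ℝ) ^ n₀ * q ≤ ((2 ^ w : ℕ) : ℝ) := by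
      have h2 : 2 ^ n₀ * q ≤ 2 ^ w := by
        refine (Nat.mul_le_mul_left _ hq1).trans ?_
        rw [← pow_add]
        exact Nat.pow_le_pow_right (by norm_num) (by omega)
      exact_mod_cast h2
    have hT0 : (0 : ℝ) < ((2 ^ w : ℕ) : ℝ) := by positivity
    have h3 : 400 * A ^ 3 / c * q ≤ ((2 ^ w : ℕ) : ℝ) :=
      (mul_le_mul_of_nonneg_right hn₀.le (Nat.cast_nonneg q)).trans h1
    rw [← mul_div_assoc, div_le_div_iff₀ hT0 (by norm_num)]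
    rw [div_mul_eq_mul_div, div_le_iff₀ hc] at h3
    linarith
  have e3 : 2 * A * δ * H ≤ c / 20 := by
    calc 2 * A * δ * H ≤ 2 * A * δ * A := mul_le_mul_of_nonneg_left hHA (by positivity)
      _ = c / 20 := by
        rw [hδd]
        field_simp
        ring
  have e4 : 2 * A / (4 * δ) * (c * s₀ * δ / (10 * A) * X.L) = c * s₀ / 20 * X.L := by
    field_simp
    ring
  have hd : 0 < c / 20 := by positivity
  -- one prime
  have hone : ∀ q ∈ EB.QQ w, wlg X (fun n => ps lam H (2 ^ w) q n) ≤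
      c * X.L + K + 4 * (c / 20) * (1 + X.L) +
        2 * A / (4 * δ) * ∑ h ∈ Icc 1 H, wlg X (fun n => tq lam q (2 ^ w) h n ^ 2) := by
    intro q hq
    have hqm := mem_filter.1 hq
    have hq1 : q ≤ 2 ^ (w / 200) := (mem_Ioc.1 hqm.1).2
    have hqw : q ≤ 2 ^ w := hq1.trans (Nat.pow_le_pow_right (by norm_num) (Nat.div_le_self _ _))
    have h1 := sf1_prime (H := H) hD hB hM hl X hqm.2 hqw hTL hδ hd
    have h2 : hs q ≤ hs (2 ^ W₁) := hs_mono (hqw.trans (Nat.pow_le_pow_right (by norm_num) hw2))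
    have hX1 : 0 ≤ 1 + X.L := by linarith
    have h3 := mul_le_mul_of_nonneg_right e1 hX1
    have h4 := mul_le_mul_of_nonneg_right (e2 q hq) hX1
    have h5 := mul_le_mul_of_nonneg_right e3 hX1
    rw [← hA] at h1
    rw [hK]
    linarith
  calc ∑ q ∈ EB.QQ w, 1 / (q : ℝ) * wlg X (fun n => ps lam H (2 ^ w) q n)
      ≤ ∑ q ∈ EB.QQ w, 1 / (q : ℝ) * (c * X.L + K + 4 * (c / 20) * (1 + X.L) +
        2 * A / (4 * δ) * ∑ h ∈ Icc 1 H, wlg X (fun n => tq lam q (2 ^ w) h n ^ 2)) :=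
        sum_le_sum fun q hq => mul_le_mul_of_nonneg_left (hone q hq) (by positivity)
    _ = (c * X.L + K + 4 * (c / 20) * (1 + X.L)) * S +
        2 * A / (4 * δ) * ∑ h ∈ Icc 1 H, wlg X (fun n => ∑ q ∈ EB.QQ w, 1 / (q : ℝ) *
          tq lam q (2 ^ w) h n ^ 2) := by
        have h1 : ∀ h : ℕ, wlg X (fun n => ∑ q ∈ EB.QQ w, 1 / (q : ℝ) *
            tq lam q (2 ^ w) h n ^ 2) = ∑ q ∈ EB.QQ w, 1 / (q : ℝ) *
              wlg X (fun n => tq lam q (2 ^ w) h n ^ 2) := by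
          intro h
          rw [wlg_sum X (EB.QQ w) (fun q n => 1 / (q : ℝ) * tq lam q (2 ^ w) h n ^ 2)]
          exact sum_congr rfl fun q _ =>
            wlg_mul X (1 / (q : ℝ)) (fun n => tq lam q (2 ^ w) h n ^ 2)
        rw [sum_congr rfl fun h _ => h1 h, sum_comm, hSd, mul_sum, mul_sum, ← sum_add_distrib]
        refine sum_congr rfl fun q _ => ?_
        rw [mul_add, mul_left_comm, mul_sum]
        ring
    _ ≤ (c * X.L + K + 4 * (c / 20) * (1 + X.L)) * S + c * s₀ / 20 * X.L := by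
        rw [← e4]
        have h1 := mul_le_mul_of_nonneg_left hw3 (by positivity : 0 ≤ 2 * A / (4 * δ))
        linarith
    _ ≤ 2 * c * S * X.L := by
        have h1 : c * s₀ / 20 * X.L ≤ c / 20 * X.L * S := by
          have h2 := mul_le_mul_of_nonneg_left hS (by positivity : 0 ≤ c / 20 * X.L)
          linarith
        have hS0 : 0 ≤ S := hs₀.le.trans hS
        have h2 : K + c ≤ c * X.L / 2 := by
          rw [div_le_iff₀ hc] at hX2
          linarith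
        have h3 : K + 4 * (c / 20) * (1 + X.L) + c / 20 * X.L ≤ c * X.L := by
          have h4 : 0 ≤ c * X.L := mul_nonneg hc.le hX0
          linarith
        have h4 := mul_le_mul_of_nonneg_right h3 hS0
        linarith

end Pool.Agent.H92.QP
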